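import Pool.Agent.Helper70K1.VN.Cert

/-!
# The theory of the hyperfinite II₁ factor is not simple

We show that the complete continuous theory `Th(R)` of the hyperfinite II₁ factor `R` is not a
simple theory: there are a model `N` of `Th(R)`, a set `B` of elements of `N` and a complete type
`p` over `B` (in one variable of the unit ball) which divides over every separable subset of `B`.

The definitions (tracial von Neumann algebras, formulas of continuous logic, theories, types,
indiscernible sequences, dividing, simplicity, hyperfinite II₁ factors) are in
`Pool.Agent.Helper70K1.VN.Logic`.  The hyperfinite II₁ factor is unique up to isomorphism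
(Murray and von Neumann).  It is realised here as the group von Neumann algebra `L(S_∞)` of the
group of the finitely supported permutations of `ℕ`; that this is a hyperfinite II₁ factor is
proved in `Pool.Agent.Helper70K1.VN.Cert`.

Idea of the proof.
* For an infinite set `X` let `FSym X` be the group of the finitely supported permutations of `X`.
  All `L(FSym X)` are elementarily equivalent: finitely supported elements of the unit ball are
  dense in it for the 2-norm, and finitely supported elements of `L(FSym X)` and `L(FSym Y)` are
  matched by finite injections between `X` and `Y`, which preserve the norms.
* Let `Ω` be uncountable and `X = Ω × (infinite set)`. In the block of `α ∈ Ω` take pairwise disjoint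
  transpositions `a_α`, `b_{α,0}`, `b_{α,1}`, .... Let `B` consist of all `a_α` and `b_{α,0}`, and
  let `p` be a limit of the types of unitaries `x_F` with `x_F a_α x_F* = b_{α,0}` for all `α` in the
  finite set `F`. Then `p` contains the conditions `‖x a_α x* - b_{α,0}‖₂ = 0`.
* A separable subset `A` of `B` is countable, so some `b_{α,0}` is not in `A`. The sequence
  `(b_{α,i})_i` is indiscernible over `B ∖ {b_{α,0}}`, since permutations of the indices `i` extend
  to automorphisms; and `x a_α x* = b_{α,0}`, `x a_α x* = b_{α,1}` are contradictory.
-/

set_option autoImplicit false

namespace Pool.Agent.Results.MP_baa3fb_lc.NotSimple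

open Pool.Agent.Helper70K1.CL Pool.Agent.Helper70K1.VN

/-- **The theory of the hyperfinite II₁ factor is not simple.** There is a hyperfinite II₁ factor
`R` (unique up to isomorphism, by Murray and von Neumann) such that `Th(R)` is not simple. -/
theorem result : ∃ R : TracialVN, IsHyperfiniteII1Factor R ∧ ¬ IsSimpleTheory (Th R) :=
  ⟨LG (FSym ℕ), isHyperfiniteII1Factor_LG, not_simple⟩

end Pool.Agent.Results.MP_baa3fb_lc.NotSimple
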